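import Pool.Agent.H695R3.ST.Generic

/-!
# Sturmian spectra at tail-equivalent frequencies need not be diffeomorphic

For every `λ > 0` and every generic `β ∈ (0, 1)` the frequency `α = 1 / (7 + β)`, whose continued
fraction expansion is `[7, b₁, b₂, …]`, has a spectrum which is not `C¹`-diffeomorphic to the one of
`β`. When `β` is extremely close to `P / Q`, then on a wide range of scales `ε` the spectrum of `β`
has at most `6 Q` gaps longer than `ε`, while the one of `α`, which is extremely close to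
`Q / (7 Q + P)`, has at least `7 Q + P - 1` such gaps.
-/

set_option autoImplicit false

open Filter Topology Pool.Agent.H695R3.ST

namespace Pool.Agent.Results.MP_e333c6_mp.SturmianNotDiffeo

/-- The Hilbert space `ℓ²(ℤ)`. -/
abbrev L2Z : Type := lp (fun _ : ℤ => ℂ) 2

/-- Bounded operators on `ℓ²(ℤ)`. -/
abbrev Op : Type := L2Z →L[ℂ] L2Z

/-- The (real) spectrum of a bounded operator. -/
def spec {X : Type} [NormedAddCommGroup X] [InnerProductSpace ℂ X] (H : X →L[ℂ] X) : Set ℝ :=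
  spectrum ℝ H

/-- The Sturmian potential: `λ` if `{ω + n α} ∈ [1 - α, 1)` and `0` otherwise. -/
noncomputable def V (lam α ω : ℝ) (n : ℤ) : ℝ :=
  if 1 - α ≤ Int.fract (ω + n * α) then lam else 0

/-- `H` is the Sturmian operator with coupling `λ`, frequency `α` and phase `ω`. -/
def IsSturmian (lam α ω : ℝ) (H : Op) : Prop :=
  ∀ (ψ : L2Z) (n : ℤ), H ψ n = ψ (n + 1) + ψ (n - 1) + (V lam α ω n : ℂ) * ψ n

/-- The Gauss map. -/
noncomputable def gauss (x : ℝ) : ℝ := Int.fract (1 / x)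

/-- The continued fraction digit `a_i`, `i ≥ 1`, of an irrational number in `(0, 1)`. -/
noncomputable def digit (x : ℝ) (i : ℕ) : ℤ := ⌊1 / (gauss^[i - 1] x)⌋

/-- Tail-equivalence: `b_{i+k} = a_i` for some `k ∈ ℤ` and all `i ≥ i₀`. -/
def TailEquiv (α β : ℝ) : Prop :=
  ∃ (k : ℤ) (i₀ : ℕ), 1 ≤ i₀ ∧ 1 ≤ (i₀ : ℤ) + k ∧
    ∀ i : ℕ, i₀ ≤ i → digit β ((i : ℤ) + k).toNat = digit α i

/-- `A` and `B` are diffeomorphic: there is a `C¹` diffeomorphism `f : U → V`, with inverse `g`,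
between open intervals `U ⊇ A`, `V ⊇ B`, and `f(A) = B`. -/
def Diffeomorphic (A B : Set ℝ) : Prop :=
  ∃ (U W : Set ℝ) (f g : ℝ → ℝ), IsOpen U ∧ U.OrdConnected ∧ IsOpen W ∧ W.OrdConnected ∧
    A ⊆ U ∧ B ⊆ W ∧ ContDiffOn ℝ 1 f U ∧ ContDiffOn ℝ 1 g W ∧ Set.MapsTo f U W ∧
    Set.MapsTo g W U ∧ (∀ x ∈ U, g (f x) = x) ∧ (∀ y ∈ W, f (g y) = y) ∧ f '' A = B

/-- `α` and `β` are tail-equivalent irrational numbers in `(0, 1)`. -/
def TailPair (α β : ℝ) : Prop :=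
  Irrational α ∧ Irrational β ∧ α ∈ Set.Ioo (0 : ℝ) 1 ∧ β ∈ Set.Ioo (0 : ℝ) 1 ∧ TailEquiv α β

/-- The spectrum for `β` is diffeomorphic to the spectrum for `α`, for all phases. -/
def SpectraDiffeo (lam α β : ℝ) : Prop :=
  ∀ ω₁ ∈ Set.Ico (0 : ℝ) 1, ∀ ω₂ ∈ Set.Ico (0 : ℝ) 1, ∀ H₁ H₂ : Op,
    IsSturmian lam α ω₁ H₁ → IsSturmian lam β ω₂ H₂ → Diffeomorphic (spec H₂) (spec H₁)

/-- For no phases the spectrum for `α` is diffeomorphic to the spectrum for `β`. -/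
def SpectraNotDiffeo (lam α β : ℝ) : Prop :=
  ∀ (ω₁ ω₂ : ℝ) (H₁ H₂ : Op), IsSturmian lam α ω₁ H₁ → IsSturmian lam β ω₂ H₂ →
    ¬ Diffeomorphic (spec H₁) (spec H₂)

/-- The assertion of Q1. -/
def TailDiffeo : Prop :=
  ∃ δ : ℝ, 0 < δ ∧ ∀ lam : ℝ, 0 < lam → lam < δ → ∀ α β : ℝ, TailPair α β →
    SpectraDiffeo lam α β

lemma isSchr_of {lam α ω : ℝ} {H : L2Z →L[ℂ] L2Z} (h : IsSturmian lam α ω H) :
    IsSchr (pot lam α ω) H := h

/-! ### continued fractions -/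

lemma gauss_seven {β : ℝ} (h0 : 0 < β) (h1 : β < 1) : gauss (1 / (7 + β)) = β := by
  unfold gauss
  rw [one_div_one_div, show (7 : ℝ) + β = β + ((7 : ℤ) : ℝ) by push_cast; ring,
    Int.fract_add_intCast]
  exact Int.fract_eq_self.2 ⟨h0.le, h1⟩

lemma tailEquiv_seven {β : ℝ} (h0 : 0 < β) (h1 : β < 1) : TailEquiv (1 / (7 + β)) β := by
  refine ⟨-1, 2, by norm_num, by norm_num, fun i hi => ?_⟩
  unfold digit
  have e1 : (((i : ℤ) + -1).toNat) - 1 = i - 2 := by omega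
  have e2 : i - 1 = (i - 2) + 1 := by omega
  rw [e1, e2, Function.iterate_succ_apply, gauss_seven h0 h1]

/-! ### diffeomorphisms and gaps -/

lemma lipschitz_on {W B : Set ℝ} {g : ℝ → ℝ} (hW : IsOpen W) (hWo : W.OrdConnected)
    (hBW : B ⊆ W) (hB : IsCompact B) (hg : ContDiffOn ℝ 1 g W) :
    ∃ C : ℝ, 0 ≤ C ∧ ∀ y₁ ∈ B, ∀ y₂ ∈ B, |g y₂ - g y₁| ≤ C * |y₂ - y₁| := by
  rcases B.eq_empty_or_nonempty with he | hne
  · exact ⟨0, le_rfl, fun y hy => by rw [he] at hy; exact absurd hy (Set.notMem_empty y)⟩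
  have hb₀ := hB.sInf_mem hne
  have hb₁ := hB.sSup_mem hne
  have hI : Set.Icc (sInf B) (sSup B) ⊆ W := hWo.out (hBW hb₀) (hBW hb₁)
  have hcont : ContinuousOn (deriv g) (Set.Icc (sInf B) (sSup B)) :=
    (hg.continuousOn_deriv_of_isOpen hW le_rfl).mono hI
  obtain ⟨C, hC⟩ := isCompact_Icc.exists_bound_of_continuousOn hcont
  refine ⟨max C 0, le_max_right _ _, fun y₁ h1 y₂ h2 => ?_⟩
  have m1 : y₁ ∈ Set.Icc (sInf B) (sSup B) :=
    ⟨csInf_le hB.bddBelow h1, le_csSup hB.bddAbove h1⟩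
  have m2 : y₂ ∈ Set.Icc (sInf B) (sSup B) :=
    ⟨csInf_le hB.bddBelow h2, le_csSup hB.bddAbove h2⟩
  have h3 := Convex.norm_image_sub_le_of_norm_deriv_le (f := g) (C := max C 0)
    (s := Set.Icc (sInf B) (sSup B))
    (fun x hx => (hg.differentiableOn one_ne_zero).differentiableAt (hW.mem_nhds (hI hx)))
    (fun x hx => (hC x hx).trans (le_max_left _ _)) (convex_Icc _ _) m1 m2
  exact h3

lemma gaps_of_diffeo {A B : Set ℝ} (hA : IsCompact A) (hB : IsCompact B)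
    (h : Diffeomorphic A B) :
    ∃ n : ℕ, ∀ (ε : ℝ) (N : ℕ), 0 < ε → HasGaps A ε N → HasGaps B (ε / (n + 1)) N := by
  obtain ⟨U, W, f, g, hU, hUo, hW, hWo, hAU, hBW, hf, hg, -, -, hgf, -, hfA⟩ := h
  obtain ⟨C, hC0, hC⟩ := lipschitz_on hW hWo hBW hB hg
  obtain ⟨n, hn⟩ := exists_nat_gt C
  refine ⟨n, fun ε N hε hgaps => ?_⟩
  obtain ⟨x, y, hx, hy, hxy⟩ := hgaps
  rcases Nat.eq_zero_or_pos N with hN | hN
  · subst hN
    exact ⟨x, y, hx, hy, fun i => i.elim0⟩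
  have hAne : A.Nonempty := ⟨_, (hxy ⟨0, hN⟩).1⟩
  have ha₀ := hA.sInf_mem hAne
  have ha₁ := hA.sSup_mem hAne
  have hI : Set.Icc (sInf A) (sSup A) ⊆ U := hUo.out (hAU ha₀) (hAU ha₁)
  have hAI : A ⊆ Set.Icc (sInf A) (sSup A) := fun t ht =>
    ⟨csInf_le hA.bddBelow ht, le_csSup hA.bddAbove ht⟩
  have hinjU : Set.InjOn f U := fun s hs t ht hst => by
    have := congrArg g hst
    rwa [hgf s hs, hgf t ht] at this
  have hmono := ContinuousOn.strictMonoOn_of_injOn_Icc' (f := f)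
    (hAI ha₀).2 (hf.continuousOn.mono hI) (hinjU.mono hI)
  have hfB : ∀ t ∈ A, f t ∈ B := fun t ht => hfA ▸ Set.mem_image_of_mem f ht
  have hdist : ∀ s ∈ A, ∀ t ∈ A, s ≤ t → t - s ≤ (n + 1) * |f t - f s| := by
    intro s hs t ht hst
    have h1 := hC (f s) (hfB s hs) (f t) (hfB t ht)
    rw [hgf s (hAU hs), hgf t (hAU ht), abs_of_nonneg (by linarith)] at h1
    refine h1.trans (mul_le_mul_of_nonneg_right ?_ (abs_nonneg _))
    linarith
  have hn1 : (0 : ℝ) < n + 1 := by positivity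
  rcases hmono with hm | hm
  · refine ⟨fun i => f (x i), fun i => f (y i), fun i j hij => hx (hinjU (hAU (hxy i).1)
      (hAU (hxy j).1) hij), fun i j hij => hy (hinjU (hAU (hxy i).2.1) (hAU (hxy j).2.1) hij),
      fun i => ?_⟩
    obtain ⟨h1, h2, h3, h4⟩ := hxy i
    have hle : ∀ s ∈ A, ∀ t ∈ A, s ≤ t → f s ≤ f t := fun s hs t ht hst =>
      hm.monotoneOn (hAI hs) (hAI ht) hst
    refine ⟨hfB _ h1, hfB _ h2, ?_, ?_⟩
    · have h5 := hdist _ h1 _ h2 (by linarith)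
      rw [abs_of_nonneg (by linarith [hle _ h1 _ h2 (by linarith)])] at h5
      have h6 : ε / (n + 1) ≤ f (y i) - f (x i) := by
        rw [div_le_iff₀ hn1]; linarith
      linarith
    · intro t' ht'
      rw [← hfA] at ht'
      obtain ⟨t, ht, rfl⟩ := ht'
      rcases h4 t ht with h5 | h5
      · left; exact hle _ ht _ h1 h5
      · right; exact hle _ h2 _ ht h5
  · refine ⟨fun i => f (y i), fun i => f (x i), fun i j hij => hy (hinjU (hAU (hxy i).2.1)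
      (hAU (hxy j).2.1) hij), fun i j hij => hx (hinjU (hAU (hxy i).1) (hAU (hxy j).1) hij),
      fun i => ?_⟩
    obtain ⟨h1, h2, h3, h4⟩ := hxy i
    have hle : ∀ s ∈ A, ∀ t ∈ A, s ≤ t → f t ≤ f s := fun s hs t ht hst =>
      hm.antitoneOn (hAI hs) (hAI ht) hst
    refine ⟨hfB _ h2, hfB _ h1, ?_, ?_⟩
    · have h5 := hdist _ h1 _ h2 (by linarith)
      rw [abs_of_nonpos (by linarith [hle _ h1 _ h2 (by linarith)])] at h5
      have h6 : ε / (n + 1) ≤ f (x i) - f (y i) := by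
        rw [div_le_iff₀ hn1]; linarith
      linarith
    · intro t' ht'
      rw [← hfA] at ht'
      obtain ⟨t, ht, rfl⟩ := ht'
      rcases h4 t ht with h5 | h5
      · right; exact hle _ ht _ h1 h5
      · left; exact hle _ h2 _ ht h5

/-- The inverse of a diffeomorphism. -/
lemma diffeo_symm {A B : Set ℝ} (h : Diffeomorphic A B) : Diffeomorphic B A := by
  obtain ⟨U, W, f, g, hU, hUo, hW, hWo, hAU, hBW, hf, hg, hfm, hgm, hgf, hfg, hfA⟩ := h
  refine ⟨W, U, g, f, hW, hWo, hU, hUo, hBW, hAU, hg, hf, hgm, hfm, hfg, hgf, ?_⟩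
  rw [← hfA]
  ext x
  constructor
  · rintro ⟨y, ⟨t, ht, rfl⟩, rfl⟩
    rwa [hgf t (hAU ht)]
  · intro hx
    exact ⟨f x, ⟨x, hx, rfl⟩, hgf x (hAU hx)⟩

/-- Generic pairs of spectra are not diffeomorphic. -/
theorem not_diffeo {lam β : ℝ} (h : ∀ n, Sep lam n β (1 / (7 + β))) {ω₁ ω₂ : ℝ}
    {H₁ H₂ : Op} (h1 : IsSturmian lam (1 / (7 + β)) ω₁ H₁)
    (h2 : IsSturmian lam β ω₂ H₂) : ¬ Diffeomorphic (spec H₁) (spec H₂) := by
  intro hd
  obtain ⟨n, hn⟩ := gaps_of_diffeo (spectrum.isCompact H₁) (spectrum.isCompact H₂) hd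
  obtain ⟨N, ε, hε, hα, hβ⟩ := h n
  exact hβ ω₂ H₂ (isSchr_of h2) (hn ε N hε (hα ω₁ H₁ (isSchr_of h1)))

theorem generic_pairs {lam : ℝ} (hlam : 0 < lam) :
    ∀ᶠ β in residual ℝ, 0 < β → β < 1 →
      TailPair (1 / (7 + β)) β ∧ SpectraNotDiffeo lam (1 / (7 + β)) β := by
  filter_upwards [generic hlam] with β hβ h0 h1
  refine ⟨⟨?_, hβ.1, ⟨by positivity, ?_⟩, ⟨h0, h1⟩, tailEquiv_seven h0 h1⟩,
    fun ω₁ ω₂ H₁ H₂ e1 e2 => not_diffeo (hβ.2 h0 h1) e1 e2⟩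
  · rw [one_div]
    exact (hβ.1.natCast_add 7).inv
  · rw [div_lt_one (by positivity)]
    linarith

theorem exists_operator {lam : ℝ} (hlam : 0 < lam) (α ω : ℝ) :
    ∃ H : L2Z →L[ℂ] L2Z, IsSturmian lam α ω H ∧ IsSelfAdjoint H :=
  exists_schr (pot_bound hlam.le α ω)

/-- **Disproof of Q1**, for every coupling. For every `λ > 0` there are tail-equivalent irrational
`α, β ∈ (0, 1)` such that no `C¹` diffeomorphism carries the spectrum for `α` onto the spectrum for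
`β`, whatever the phases. One may take any `β` in a residual set and `α = 1 / (7 + β)`. -/
theorem result : ¬ TailDiffeo ∧
    (∀ lam : ℝ, 0 < lam → ∃ α β : ℝ, TailPair α β ∧ SpectraNotDiffeo lam α β) ∧
    (∀ lam : ℝ, 0 < lam → ∀ᶠ β in residual ℝ, 0 < β → β < 1 →
      TailPair (1 / (7 + β)) β ∧ SpectraNotDiffeo lam (1 / (7 + β)) β) ∧
    ∀ lam : ℝ, 0 < lam → ∀ α ω : ℝ, ∃ H : Op, IsSturmian lam α ω H ∧ IsSelfAdjoint H := by
  have key : ∀ lam : ℝ, 0 < lam → ∃ α β : ℝ, TailPair α β ∧ SpectraNotDiffeo lam α β := by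
    intro lam hlam
    have hd := dense_of_mem_residual (generic_pairs hlam)
    obtain ⟨β, hβ1, hβ2⟩ := hd.inter_open_nonempty (Set.Ioo (0 : ℝ) 1) isOpen_Ioo
      ⟨1 / 2, by norm_num⟩
    obtain ⟨e1, e2⟩ := hβ2 hβ1.1 hβ1.2
    exact ⟨1 / (7 + β), β, e1, e2⟩
  refine ⟨?_, key, fun lam hlam => generic_pairs hlam, fun lam hlam α ω =>
    exists_operator hlam α ω⟩
  rintro ⟨δ, hδ, h⟩
  obtain ⟨α, β, e1, e2⟩ := key (δ / 2) (by positivity)
  obtain ⟨H₁, h1, -⟩ := exists_operator (by positivity : 0 < δ / 2) α 0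
  obtain ⟨H₂, h2, -⟩ := exists_operator (by positivity : 0 < δ / 2) β 0
  exact e2 0 0 H₁ H₂ h1 h2 (diffeo_symm (h (δ / 2) (by positivity) (by linarith) α β e1 0
    ⟨le_rfl, one_pos⟩ 0 ⟨le_rfl, one_pos⟩ H₁ H₂ h1 h2))

end Pool.Agent.Results.MP_e333c6_mp.SturmianNotDiffeo
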